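import Pool.Agent.H792_Atoms.QuadH

/-!
# Atoms of the pair correlation of the zeta zeros at the half-integers

On the Riemann hypothesis we bound jointly the possible point masses `m_1, m_2, …` of the pair
correlation of the zeta zeros at `1/2, 3/2, …` (the pair correlation conjecture says that there are
none) and the mean multiplicity `M` of the zeros: with `ν_k = k - 1/2`,
`(2 M - 1) ∑_k 1 / (π² ν_k² (1 - m_k) - 1/2) ≤ 1`.
-/

open Filter Set

namespace Pool.Agent.Results.MP_103a5c_nt.AtomsAtHalfIntegers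

open W200.HW (Ix)
open Pool.Agent.H792_Atoms (NP nu NP_diag quadH sumH)

/-- multiplicity of `s` as a zero of the Riemann zeta function (order of vanishing at `s`) -/
noncomputable def zmult (s : ℂ) : ℕ := analyticOrderNatAt riemannZeta s

/-- the number of nontrivial zeros of `ζ` with ordinate in `(0, t]`, with multiplicity -/
noncomputable def NZ (t : ℝ) : ℕ :=
  ∑ᶠ s ∈ {s : ℂ | riemannZeta s = 0 ∧ 0 < s.re ∧ s.re < 1 ∧ 0 < s.im ∧ s.im ≤ t}, zmult s

/-- for `n ≥ 1`: the `n`-th positive ordinate `γ n` of a nontrivial zero of `ζ`, the ordinates being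
listed in nondecreasing order and repeated according to multiplicity -/
noncomputable def γ (n : ℕ) : ℝ := sInf {t : ℝ | n ≤ NZ t}

/-- the number `N(T; α, β)` of ordered pairs of ordinates in `(0, T]`, listed with multiplicity,
with `2πα / log T ≤ γ - γ' ≤ 2πβ / log T` (diagonal pairs included) -/
noncomputable def N (T α β : ℝ) : ℕ :=
  {p : ℕ × ℕ | (1 ≤ p.1 ∧ γ p.1 ≤ T) ∧ (1 ≤ p.2 ∧ γ p.2 ≤ T) ∧
    2 * Real.pi * α / Real.log T ≤ γ p.1 - γ p.2 ∧
    γ p.1 - γ p.2 ≤ 2 * Real.pi * β / Real.log T}.ncard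

/-- **Atoms of the pair correlation at the half-integers**, on the Riemann hypothesis.  Let
`m_1, …, m_K ≥ 0` and `M ≥ 1`.  If for every `ε > 0` there are arbitrarily large `T` with
`N(T; k - 1/2 - ε, k - 1/2 + ε) ≥ (m_k - ε) (T / 2π) log T` for `k = 1, …, K` and, when
`M > 1`, also `N(T; -ε, ε) ≥ (M - ε) (T / 2π) log T`, then
`(2 M - 1) ∑_{k ≤ K} 1 / (π² (k - 1/2)² (1 - m_k) - 1/2) ≤ 1`, and every denominator is at least
`2 M - 1`. -/
theorem result (hRH : RiemannHypothesis) (K : ℕ) (M : ℝ) (hM : 1 ≤ M) (m : ℕ → ℝ)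
    (hm : ∀ k, 0 ≤ m k)
    (h : ∀ ε : ℝ, 0 < ε → ∃ᶠ T : ℝ in atTop,
      (1 < M → (M - ε) * (T / (2 * Real.pi) * Real.log T) ≤ N T (-ε) ε) ∧
      ∀ k ∈ Finset.Icc 1 K, (m k - ε) * (T / (2 * Real.pi) * Real.log T) ≤
        N T ((k : ℝ) - 1 / 2 - ε) ((k : ℝ) - 1 / 2 + ε)) :
    (∀ k ∈ Finset.Icc 1 K, 2 * M - 1 ≤ Real.pi ^ 2 * ((k : ℝ) - 1 / 2) ^ 2 * (1 - m k) - 1 / 2) ∧
      (2 * M - 1) * ∑ k ∈ Finset.Icc 1 K,
        1 / (Real.pi ^ 2 * ((k : ℝ) - 1 / 2) ^ 2 * (1 - m k) - 1 / 2) ≤ 1 := by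
  have hpi := Real.pi_pos
  have hfreq : ∀ ε : ℝ, 0 < ε → ∃ᶠ T : ℝ in atTop,
      (M - ε) * (T / (2 * Real.pi) * Real.log T) ≤ NP T (0 - ε) (0 + ε) ∧
      ∀ k ∈ Finset.Icc 1 K,
        (m k - ε) * (T / (2 * Real.pi) * Real.log T) ≤ NP T (nu k - ε) (nu k + ε) := by
    intro ε hε
    obtain ⟨T0, hT0⟩ := W200.HW.NZ_lower ε hε
    refine ((h ε hε).and_eventually
      ((eventually_ge_atTop T0).and (eventually_ge_atTop 3))).mono ?_
    rintro T ⟨⟨h1, h2⟩, h3, h4⟩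
    refine ⟨?_, fun k hk => h2 k hk⟩
    rcases hM.eq_or_lt with h5 | h5
    · rw [← h5]
      have h6 := hT0 T h3
      have h7 := NP_diag (T := T) (e := ε) (Real.log_pos (by linarith)) hε.le
      rw [W200.HW.card_Ix] at h7
      exact h6.trans h7
    · rw [zero_sub, zero_add]
      exact h1 h5
  obtain ⟨ha, hb⟩ := sumH K hM m (quadH hRH K (by linarith) m hm hfreq)
  refine ⟨fun k hk => ?_, hb⟩
  have h1 := ha k hk
  have hk0 := Pool.Agent.H792_Atoms.nu_pos (Finset.mem_Icc.1 hk).1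
  rw [div_le_iff₀ (by positivity)] at h1
  have e : nu k = (k : ℝ) - 1 / 2 := rfl
  rw [e] at h1
  linarith

end Pool.Agent.Results.MP_103a5c_nt.AtomsAtHalfIntegers
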