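import Pool.Agent.H792_Atoms.QuadE

/-!
# Atoms of the pair correlation of the zeta zeros at the integers

Montgomery's pair correlation conjecture says that the number of ordered pairs of ordinates
`γ, γ' ∈ (0, T]` whose normalised difference `(γ - γ') log T / 2π` lies in `[α, β]` is asymptotic
to `(T / 2π) log T (∫_α^β (1 - (sin πu / πu)²) du + δ)`, `δ = 1` if `0 ∈ [α, β]` and `δ = 0`
otherwise; in particular the differences do not concentrate at the integers, and almost all zeros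
are simple.  We prove two joint bounds for such a concentration and the mean multiplicity: if, for
arbitrarily large `T`, the normalised numbers of pairs with difference near `k` are at least `m_k`
for `k = 0, 1, …, K`, then `∑_{1 ≤ k ≤ K} 1 / (π² k² (1 - m_k) - 1/2) ≤ 1` and
`m_0 + (1 / 2π²) ∑_{1 ≤ k ≤ K} 1 / (k² (π² k² (1 - m_k) - 1/2)) ≤ 4/3`.
-/

open Filter Set

namespace Pool.Agent.Results.MP_103a5c_nt.AtomsAtIntegers

/-- multiplicity of `s` as a zero of the Riemann zeta function (order of vanishing at `s`) -/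
noncomputable def zmult (s : ℂ) : ℕ := analyticOrderNatAt riemannZeta s

/-- the number of nontrivial zeros of `ζ` with ordinate in `(0, t]`, with multiplicity -/
noncomputable def NZ (t : ℝ) : ℕ :=
  ∑ᶠ s ∈ {s : ℂ | riemannZeta s = 0 ∧ 0 < s.re ∧ s.re < 1 ∧ 0 < s.im ∧ s.im ≤ t}, zmult s

/-- for `n ≥ 1`: the `n`-th positive ordinate `γ n` of a nontrivial zero of `ζ`, the ordinates being
listed in nondecreasing order and repeated according to multiplicity -/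
noncomputable def γ (n : ℕ) : ℝ := sInf {t : ℝ | n ≤ NZ t}

/-- the number `N(T; α, β)` of ordered pairs of ordinates in `(0, T]`, listed with multiplicity,
with `2πα / log T ≤ γ - γ' ≤ 2πβ / log T` (diagonal pairs included) -/
noncomputable def N (T α β : ℝ) : ℕ :=
  {p : ℕ × ℕ | (1 ≤ p.1 ∧ γ p.1 ≤ T) ∧ (1 ≤ p.2 ∧ γ p.2 ≤ T) ∧
    2 * Real.pi * α / Real.log T ≤ γ p.1 - γ p.2 ∧
    γ p.1 - γ p.2 ≤ 2 * Real.pi * β / Real.log T}.ncard

/-- **Atoms of the pair correlation at the integers**, on the Riemann hypothesis.  If for every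
`ε > 0` there are arbitrarily large `T` with `N(T; k - ε, k + ε) ≥ m_k (T / 2π) log T` for
`k = 0, 1, …, K`, then `1 - m_k ≥ 3 / (2π²k²)` for `1 ≤ k ≤ K`,
`∑_{1 ≤ k ≤ K} 1 / (π² k² (1 - m_k) - 1/2) ≤ 1`, and
`m_0 + (1 / 2π²) ∑_{1 ≤ k ≤ K} 1 / (k² (π² k² (1 - m_k) - 1/2)) ≤ 4/3`. -/
theorem result (hRH : RiemannHypothesis) (K : ℕ) (m : ℕ → ℝ) (hm : ∀ k, 0 ≤ m k)
    (h : ∀ ε : ℝ, 0 < ε → ∃ᶠ T : ℝ in atTop, ∀ k ∈ Finset.Icc 0 K,
      m k * (T / (2 * Real.pi) * Real.log T) ≤ N T (k - ε) (k + ε)) :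
    (∀ k ∈ Finset.Icc 1 K, 3 / (2 * Real.pi ^ 2 * (k : ℝ) ^ 2) ≤ 1 - m k) ∧
      ∑ k ∈ Finset.Icc 1 K, 1 / (Real.pi ^ 2 * (k : ℝ) ^ 2 * (1 - m k) - 1 / 2) ≤ 1 ∧
      m 0 + 1 / (2 * Real.pi ^ 2) * ∑ k ∈ Finset.Icc 1 K,
        1 / ((k : ℝ) ^ 2 * (Real.pi ^ 2 * (k : ℝ) ^ 2 * (1 - m k) - 1 / 2)) ≤ 4 / 3 := by
  have h1 : ∀ ε : ℝ, 0 < ε → ∃ᶠ T : ℝ in atTop, ∀ k ∈ Finset.Icc 1 K,
      m k * (T / (2 * Real.pi) * Real.log T) ≤ Pool.Agent.H792_Atoms.NP T (k - ε) (k + ε) :=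
    fun ε hε => (h ε hε).mono fun T hT k hk => hT k (Finset.mem_Icc.2
      ⟨Nat.zero_le _, (Finset.mem_Icc.1 hk).2⟩)
  have h0 : ∀ ε : ℝ, 0 < ε → ∃ᶠ T : ℝ in atTop, ∀ k ∈ Finset.range (K + 1),
      m k * (T / (2 * Real.pi) * Real.log T) ≤ Pool.Agent.H792_Atoms.NP T (k - ε) (k + ε) :=
    fun ε hε => (h ε hε).mono fun T hT k hk => hT k (Finset.mem_Icc.2
      ⟨Nat.zero_le _, Nat.lt_succ_iff.1 (Finset.mem_range.1 hk)⟩)
  obtain ⟨ha, hb⟩ := Pool.Agent.H792_Atoms.quad_sum K m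
    (Pool.Agent.H792_Atoms.quad hRH K m hm h1)
  exact ⟨ha, hb, Pool.Agent.H792_Atoms.sumE K m ha
    (Pool.Agent.H792_Atoms.quadE hRH K m hm h0 1)⟩

end Pool.Agent.Results.MP_103a5c_nt.AtomsAtIntegers
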