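import Pool.Agent.H707.NV.Fin

/-!
# The number variance of the zeta zeros (under RH)

The mean square of the number of ordinates in a window of `x` mean spacings is the average over
`0 < u < x` of the pair counts `N(T; -u, u)`, so that Montgomery's conjecture predicts it.  The tent
`(x - |u|)₊` has a nonnegative Fourier transform; with Montgomery's theorem for `|α| ≤ 1` and
`F ≥ 0` beyond this gives the lower bound.  For `x = m + 1/2` the tent is majorised by its Hermite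
interpolant at the integers, a function of exponential type `2π`, which gives the upper bound.  As
the counts `N` are integers, `(N - m) (N - m - 1) ≥ 0`, and the mean of this is at most `J m`: the
counts take one of the two values next to their mean `m + 1/2` outside a set of relative measure at
most `J m / 2`.
-/

open Filter MeasureTheory

namespace Pool.Agent.Results.MP_103a5c_nt.NumberVariance

/-- multiplicity of `s` as a zero of the Riemann zeta function (order of vanishing at `s`) -/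
noncomputable def zmult (s : ℂ) : ℕ := analyticOrderNatAt riemannZeta s

/-- the number of nontrivial zeros of `ζ` with ordinate in `(0, t]`, with multiplicity -/
noncomputable def NZ (t : ℝ) : ℕ :=
  ∑ᶠ s ∈ {s : ℂ | riemannZeta s = 0 ∧ 0 < s.re ∧ s.re < 1 ∧ 0 < s.im ∧ s.im ≤ t}, zmult s

/-- the number of ordinates in the window `(t, t + 2πx / log T]`, with multiplicity -/
noncomputable def cnt (T x t : ℝ) : ℤ := (NZ (t + 2 * Real.pi * x / Real.log T) : ℤ) - NZ t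

/-- `L(x) = (2 / π²) ∫_0^1 sin² (π x u) / u du` -/
noncomputable def L (x : ℝ) : ℝ :=
  2 / Real.pi ^ 2 * ∫ u in (0 : ℝ)..1, Real.sin (Real.pi * x * u) ^ 2 / u

/-- `J_m = (m + 1/2) / 3 - ((2m+1) / π²) ∑_{k ≤ m} 1/k² + (1 / π²) ∑_{k ≤ m} 1/k` -/
noncomputable def J (m : ℕ) : ℝ :=
  ((m : ℝ) + 1 / 2) / 3 - (2 * m + 1) / Real.pi ^ 2 * ∑ k ∈ Finset.range m, 1 / ((k : ℝ) + 1) ^ 2 +
    1 / Real.pi ^ 2 * ∑ k ∈ Finset.range m, 1 / ((k : ℝ) + 1)

/-- On the Riemann hypothesis: (1) for every `x > 0` the mean square over `t ∈ [T, 2T]` of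
`cnt T x t - x` is at least `L(x) - ε` for all large `T`; (2) for `x = m + 1/2 + s`, `0 ≤ s ≤ 1`, it
is at most `1/4 + (1 - s) J_m + s J_{m+1} + s (1 - s) + ε` for all large `T`; (3) for `x = m + 1/2`
the measure of the `t ∈ [T, 2T]` with `cnt T x t ∉ {m, m + 1}` is at most `(J_m / 2 + ε) T` for all
large `T`; (4) `J_m ≤ (2 + ∑_{k ≤ m} 1/k) / π²`, and `J_m / 2 ≤ 0.995` for all `m ≤ 2 ^ 24`. -/
theorem result (RH : RiemannHypothesis) :
    (∀ x : ℝ, 0 < x → ∀ ε : ℝ, 0 < ε → ∀ᶠ T : ℝ in atTop,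
      L x - ε ≤ (1 / T) * ∫ t in T..(2 * T), ((cnt T x t : ℝ) - x) ^ 2) ∧
    (∀ m : ℕ, ∀ s : ℝ, 0 ≤ s → s ≤ 1 → ∀ ε : ℝ, 0 < ε → ∀ᶠ T : ℝ in atTop,
      (1 / T) * ∫ t in T..(2 * T),
        ((cnt T ((m : ℝ) + 1 / 2 + s) t : ℝ) - ((m : ℝ) + 1 / 2 + s)) ^ 2 ≤
        1 / 4 + (1 - s) * J m + s * J (m + 1) + s * (1 - s) + ε) ∧
    (∀ m : ℕ, ∀ ε : ℝ, 0 < ε → ∀ᶠ T : ℝ in atTop,
      volume.real {t : ℝ | T ≤ t ∧ t ≤ 2 * T ∧ cnt T ((m : ℝ) + 1 / 2) t ≠ m ∧
        cnt T ((m : ℝ) + 1 / 2) t ≠ m + 1} ≤ (J m / 2 + ε) * T) ∧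
    (∀ m : ℕ, J m ≤ (2 + ∑ k ∈ Finset.range m, 1 / ((k : ℝ) + 1)) / Real.pi ^ 2) ∧
    (∀ m : ℕ, m ≤ 2 ^ 24 → J m / 2 ≤ 0.995) := by
  have hc : ∀ T x t : ℝ, (cnt T x t : ℝ) = Pool.Agent.H707.NV.cn (Pool.Agent.H707.NV.hl x T) t := by
    intro T x t
    have h1 : cnt T x t = Pool.Agent.H707.NV.cz (Pool.Agent.H707.NV.hl x T) t := rfl
    rw [h1, Pool.Agent.H707.NV.cz_cast]
  refine ⟨fun x hx ε hε => ?_, fun m s hs0 hs1 ε hε => ?_, fun m ε hε => ?_,
    fun m => Pool.Agent.H707.SM.Jm_le m, fun m hm => Pool.Agent.H707.NV.Jm_num m hm⟩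
  · filter_upwards [Pool.Agent.H707.NV.var_lower RH hx hε, eventually_gt_atTop 0] with T h1 hT
    simp only [hc]
    rw [one_div, inv_mul_eq_div]
    exact (le_div_iff₀ hT).2 h1
  · filter_upwards [Pool.Agent.H707.NV.var_upper RH m hs0 hs1 hε,
      eventually_gt_atTop 0] with T h1 hT
    simp only [hc]
    rw [one_div, inv_mul_eq_div]
    exact (div_le_iff₀ hT).2 h1
  · exact Pool.Agent.H707.NV.conc RH m hε

end Pool.Agent.Results.MP_103a5c_nt.NumberVariance
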