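import Pool.Agent.H424.MW.Fin
import Pool.Agent.H424.TW.Rig

/-!
# The signs of the discrepancy of the pair correlation for long symmetric windows

Assume the Riemann hypothesis and let `Δ(β) = N(T; -β, β) / X(T) - P(-β, β)`, the error in
Montgomery's conjecture for the pairs of ordinates at distance at most `2πβ / log T`. Let `w` be an
even or an odd real trigonometric polynomial, a finite sum of terms `d cos 2πaβ`, or of terms
`d sin 2πaβ`, with frequencies `|a| < 1`, not identically zero. Montgomery's conjecture, for all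
windows, holds if and only if `w(β) Δ(β)` is, for all `β` larger than some `R`, asymptotically at
least `-C exp(-cβ)`. For `w = 1`: the conjecture is equivalent to the lower half of it for the
windows `[-β, β]`, `β ≥ R`, up to an exponentially small error; for `w = -1`: also to the upper
half. So if the conjecture fails, the limits of `Δ` take both signs for arbitrarily large `β`, with
a size which is not exponentially small, and for large `β` their sign is not that of an even or odd
trigonometric polynomial of degree less than one. No condition is made on the windows with `β < R`.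

For the multiplicities we also prove an effective form at a single height `T`.

Idea of the proof. By Montgomery's theorem the Fourier transform of a limit `D` of `Δ`, extended as
an odd function, vanishes on `(-1, 1)`. Multiplication by `x w(x)`, `w` even, or by `w(x)`, `w` odd,
gives an even function which has a smaller spectral gap and is bounded below by `-C exp(-c|x|)`.
Such a function is zero: its positive part has exponential moments, so that its Fourier transform
is analytic.
-/

open Filter Topology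

namespace Pool.Agent.Results.MP_103a5c_nt.TailSigns

/-- the nontrivial zeros of `ζ` with ordinate in `(0, T]` -/
def zeros (T : ℝ) : Set ℂ :=
  {s : ℂ | 0 < s.re ∧ s.re < 1 ∧ 0 < s.im ∧ s.im ≤ T ∧ riemannZeta s = 0}

/-- the multiplicity of `s` as a zero of `ζ` -/
noncomputable def mult (s : ℂ) : ℕ := analyticOrderNatAt riemannZeta s

/-- `N(T; α, β)`: the number of ordered pairs of zeros (counted with multiplicity, the diagonal
included) with ordinates in `(0, T]` whose difference lies in `[2πα / log T, 2πβ / log T]` -/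
noncomputable def N (T α β : ℝ) : ℕ :=
  ∑ᶠ s ∈ zeros T, ∑ᶠ s' ∈ {s' : ℂ | s' ∈ zeros T ∧
    2 * Real.pi * α / Real.log T ≤ s.im - s'.im ∧ s.im - s'.im ≤ 2 * Real.pi * β / Real.log T},
      mult s * mult s'

/-- the number of ordered pairs of zeros (counted with multiplicity) with ordinates `γ, γ'` in
`(0, T]` and `0 < γ - γ' ≤ 2πβ / log T` -/
noncomputable def Npos (T β : ℝ) : ℕ :=
  ∑ᶠ s ∈ zeros T, ∑ᶠ s' ∈ {s' : ℂ | s' ∈ zeros T ∧
    0 < s.im - s'.im ∧ s.im - s'.im ≤ 2 * Real.pi * β / Real.log T}, mult s * mult s'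

/-- the number of simple zeros with ordinate in `(0, T]` -/
noncomputable def Nsimple (T : ℝ) : ℕ := {s : ℂ | s ∈ zeros T ∧ mult s = 1}.ncard

/-- `∫_α^β (1 - (sin πu / πu)²) du` -/
noncomputable def gue (α β : ℝ) : ℝ :=
  ∫ u in α..β, (1 - (Real.sin (Real.pi * u) / (Real.pi * u)) ^ 2)

/-- the constant of the conjecture -/
noncomputable def P (α β : ℝ) : ℝ := gue α β + if α ≤ 0 ∧ 0 ≤ β then 1 else 0

/-- `(T / 2π) log T` -/
noncomputable def X (T : ℝ) : ℝ := T / (2 * Real.pi) * Real.log T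

/-- Montgomery's conjecture for `T → ∞` along the filter `l` -/
def Montgomery (l : Filter ℝ) : Prop := ∀ α β : ℝ, α < β →
  Asymptotics.IsEquivalent l (fun T => (N T α β : ℝ)) (fun T => P α β * X T)

/-- for `β ≥ R`, the discrepancy of the window `[-β, β]` times `w β` is bounded below by an
exponentially small quantity, asymptotically along `l` -/
def TailSign (l : Filter ℝ) (w : ℝ → ℝ) : Prop := ∃ C c R : ℝ, 0 < C ∧ 0 < c ∧ 0 < R ∧
  ∀ β : ℝ, R ≤ β → ∀ ε : ℝ, 0 < ε → ∀ᶠ T in l,
    -(C * Real.exp (-(c * β)) + ε) * X T ≤ w β * (N T (-β) β - P (-β) β * X T)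

/-- the lower half of the conjecture for the windows `(0, β]`, `β ≥ R`, up to an exponentially small
error -/
def TailInitial (l : Filter ℝ) : Prop := ∃ C c R : ℝ, 0 < C ∧ 0 < c ∧ 0 < R ∧
  ∀ β : ℝ, R ≤ β → ∀ ε : ℝ, 0 < ε → ∀ᶠ T in l,
    (gue 0 β - C * Real.exp (-(c * β)) - ε) * X T ≤ Npos T β

open Pool.Agent.Y744

lemma X_eq (T : ℝ) : X T = Xf T := by
  unfold X Xf
  ring

lemma gue_eq (α β : ℝ) : gue α β = gp β - gp α := by
  unfold gue
  rw [gp_sub]
  refine intervalIntegral.integral_congr_ae ?_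
  have h0 : ∀ᵐ x : ℝ, x ≠ 0 := by
    rw [MeasureTheory.ae_iff]
    simp
  filter_upwards [h0] with x hx _
  unfold gd
  have hpi := Real.pi_pos
  rw [Real.sinc_of_ne_zero (by positivity)]

lemma gue_zero (β : ℝ) : gue 0 β = gp β := by
  rw [gue_eq, gp_zero, sub_zero]

lemma P_sym {β : ℝ} (hβ : 0 ≤ β) : P (-β) β = AG β := by
  unfold P
  rw [gue_eq, if_pos ⟨by linarith, hβ⟩, H424.MW.AG_eq hβ, gp_odd]
  ring

lemma N_sym {T : ℝ} (hT : 1 < T) {β : ℝ} : (N T (-β) β : ℝ) = Xf T * Aa T β := by
  have h : (N T (-β) β : ℝ) = PC T (Set.Icc (-β) β) := G.N_eq hT (-β) β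
  rw [h]
  unfold Aa
  rw [mul_inv_cancel_left₀ (Xf_pos hT).ne']
  congr 1
  ext x
  show -β ≤ x ∧ x ≤ β ↔ |x| ≤ β
  rw [abs_le]

lemma Npos_eq {T : ℝ} (hT : 1 < T) (β : ℝ) : (Npos T β : ℝ) = PC T (Set.Ioc 0 β) := by
  classical
  have hlog : 0 < Real.log T := Real.log_pos hT
  have hpi := Real.pi_pos
  unfold Npos PC
  have hf : (zeros T).Finite := H370.zeta_zeros_finite T
  have hfe : hf.toFinset = Zt T := by
    ext s
    rw [Set.Finite.mem_toFinset, mem_Zt]
    rfl
  rw [finsum_mem_eq_finite_toFinset_sum _ hf, hfe]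
  push_cast
  refine Finset.sum_congr rfl fun s _ => ?_
  have hfin : {s' : ℂ | s' ∈ zeros T ∧ 0 < s.im - s'.im ∧
      s.im - s'.im ≤ 2 * Real.pi * β / Real.log T}.Finite :=
    (H370.zeta_zeros_finite T).subset fun _ h => h.1
  rw [finsum_mem_eq_finite_toFinset_sum _ hfin]
  push_cast
  have e : ∀ s' : ℂ, mz s * mz s' * (Set.Ioc 0 β).indicator (fun _ => (1 : ℝ)) (dd T s s') =
      if (dd T s s') ∈ Set.Ioc 0 β then mz s * mz s' else 0 := by
    intro s'
    by_cases h : dd T s s' ∈ Set.Ioc 0 β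
    · rw [if_pos h, Set.indicator_of_mem h, mul_one]
    · rw [if_neg h, Set.indicator_of_notMem h, mul_zero]
  simp_rw [e]
  rw [← Finset.sum_filter]
  refine Finset.sum_congr ?_ fun s' _ => rfl
  ext s'
  rw [Set.Finite.mem_toFinset, Finset.mem_filter]
  have e1 : (0 < s.im - s'.im ∧ s.im - s'.im ≤ 2 * Real.pi * β / Real.log T) ↔
      dd T s s' ∈ Set.Ioc 0 β := by
    unfold dd
    rw [Set.mem_Ioc, le_div_iff₀ hlog, div_le_iff₀ (by positivity), lt_div_iff₀ (by positivity)]
    constructor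
    · rintro ⟨h1, h2⟩
      constructor
      · rw [zero_mul]
        positivity
      · linarith
    · rintro ⟨h1, h2⟩
      constructor
      · rw [zero_mul] at h1
        exact pos_of_mul_pos_left h1 hlog.le
      · linarith
  rw [← e1]
  show (s' ∈ zeros T ∧ _) ↔ _
  rw [mem_Zt]
  rfl

lemma Npos_Aa {T : ℝ} (hT : 1 < T) {β : ℝ} (hβ : 0 ≤ β) :
    (Npos T β : ℝ) = Xf T * ((Aa T β - Aa T 0) / 2) := by
  have hX := (Xf_pos hT).ne'
  rw [Npos_eq hT]
  have h1 := PC_abs T hβ
  have h2 : PC T (Set.Icc 0 β) = PC T {x | |x| ≤ 0} + PC T (Set.Ioc 0 β) := by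
    rw [← PC_union T]
    · congr 1
      ext x
      simp only [Set.mem_Icc, Set.mem_union, Set.mem_ofPred_eq, abs_nonpos_iff, Set.mem_Ioc]
      constructor
      · rintro ⟨h1, h2⟩
        rcases h1.eq_or_lt with h | h
        · exact Or.inl h.symm
        · exact Or.inr ⟨h, h2⟩
      · rintro (rfl | ⟨h1, h2⟩)
        · exact ⟨le_rfl, hβ⟩
        · exact ⟨h1.le, h2⟩
    · rw [Set.disjoint_left]
      rintro x (h1 : |x| ≤ 0) h2
      rw [abs_nonpos_iff] at h1
      rw [h1] at h2
      exact lt_irrefl _ h2.1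
  unfold Aa
  rw [h1, h2]
  field_simp
  ring

lemma P_eq (α β : ℝ) : P α β = G.P α β := rfl

lemma mont_iff (l : Filter ℝ) : Montgomery l ↔ G.Montgomery l := Iff.rfl

/-- the simple zeros -/
lemma simple_ge {T : ℝ} (hT : 1 < T) :
    2 * (H370.NN riemannZeta 0 T : ℝ) - Xf T * Aa T 0 ≤ Nsimple T := by
  classical
  have hX := (Xf_pos hT).ne'
  unfold Aa
  rw [mul_inv_cancel_left₀ hX]
  have h1 : (Nsimple T : ℝ) = ∑ s ∈ Zt T, (if mult s = 1 then (1 : ℝ) else 0) := by
    unfold Nsimple
    have e : {s : ℂ | s ∈ zeros T ∧ mult s = 1} =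
        (((Zt T).filter fun s => mult s = 1 : Finset ℂ) : Set ℂ) := by
      ext s
      rw [Finset.mem_coe, Finset.mem_filter, mem_Zt]
      rfl
    rw [e, Set.ncard_coe_finset, Finset.sum_ite, Finset.sum_const_zero, add_zero,
      Finset.sum_const, nsmul_eq_mul, mul_one]
  have h2 : ∑ s ∈ Zt T, mz s * mz s ≤ PC T {x | |x| ≤ 0} := by
    unfold PC
    refine Finset.sum_le_sum fun s hs => ?_
    have h3 : mz s * mz s = mz s * mz s * Set.indicator {x | |x| ≤ 0} (fun _ => (1 : ℝ))
        (dd T s s) := by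
      have h4 : dd T s s = 0 := by unfold dd; simp
      rw [h4, Set.indicator_of_mem (by simp : (0 : ℝ) ∈ {x : ℝ | |x| ≤ 0}), mul_one]
    rw [h3]
    exact Finset.single_le_sum (f := fun s' => mz s * mz s' *
      Set.indicator {x | |x| ≤ 0} (fun _ => (1 : ℝ)) (dd T s s')) (fun s' _ =>
        mul_nonneg (mul_nonneg (mz_nonneg _) (mz_nonneg _)) (ind_nonneg _ _)) hs
  rw [h1, ← sum_Zt, Finset.mul_sum]
  refine le_trans (sub_le_sub_left h2 _) ?_
  rw [← Finset.sum_sub_distrib]
  refine Finset.sum_le_sum fun s _ => ?_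
  have e : mz s = (mult s : ℝ) := rfl
  rw [e]
  rcases Nat.lt_or_ge (mult s) 2 with h | h
  · interval_cases hm : mult s
    · simp
    · simp
      norm_num
  · have h5 : (2 : ℝ) ≤ mult s := by exact_mod_cast h
    rw [if_neg (by omega)]
    nlinarith

lemma tail_iff {l : Filter ℝ} (hl : l ≤ atTop) {w : ℝ → ℝ} {C c β ε : ℝ} (hβ : 0 < β) :
    (∀ᶠ T in l, -(C * Real.exp (-(c * β)) + ε) * X T ≤ w β * (N T (-β) β - P (-β) β * X T)) ↔
    ∀ᶠ T in l, -(C * Real.exp (-(c * β))) - ε ≤ w β * (Aa T β - AG β) := by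
  have hev : ∀ᶠ T in l, 1 < T := hl (eventually_gt_atTop 1)
  have key : ∀ T : ℝ, 1 < T → ((-(C * Real.exp (-(c * β)) + ε) * X T ≤
      w β * (N T (-β) β - P (-β) β * X T)) ↔
      (-(C * Real.exp (-(c * β))) - ε ≤ w β * (Aa T β - AG β))) := by
    intro T hT
    have hX := Xf_pos hT
    rw [N_sym hT, X_eq, P_sym hβ.le]
    have e1 : -(C * Real.exp (-(c * β)) + ε) * Xf T =
        Xf T * (-(C * Real.exp (-(c * β))) - ε) := by ring
    have e2 : w β * (Xf T * Aa T β - AG β * Xf T) = Xf T * (w β * (Aa T β - AG β)) := by ring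
    rw [e1, e2]
    exact ⟨fun h => le_of_mul_le_mul_left h hX, fun h => mul_le_mul_of_nonneg_left h hX.le⟩
  constructor
  · intro h
    filter_upwards [h, hev] with T h1 hT
    exact (key T hT).1 h1
  · intro h
    filter_upwards [h, hev] with T h1 hT
    exact (key T hT).2 h1

lemma of_Aa {l : Filter ℝ} (hl : l ≤ atTop) (h : ∀ x, Tendsto (fun T => Aa T x) l (𝓝 (AG x))) :
    Montgomery l := by
  rw [mont_iff, G.Mont_iff hl]
  exact fun α β hαβ => Nr_all hl h hαβ

lemma to_Aa (hRH : RiemannHypothesis) {l : Filter ℝ} (hl : l ≤ atTop) (h : Montgomery l) (x : ℝ) :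
    Tendsto (fun T => Aa T x) l (𝓝 (AG x)) := by
  refine H424.MW.Aa_tend hRH hl (fun t ht ε hε => ?_) x
  rw [mont_iff, G.Mont_iff hl] at h
  have h1 := h (-t) t (by linarith)
  have h2 : pr (-t) t = AG t := by
    rw [← P_sym ht.le, P_eq, G.P_eq]
  rw [h2] at h1
  have h3 := h1.eventually (lt_mem_nhds (show AG t - ε < AG t by linarith))
  filter_upwards [h3, hl (eventually_gt_atTop 1)] with T h4 hT
  refine h4.le.trans (le_of_eq ?_)
  have h5 := N_sym hT (β := t)
  have h6 : (N T (-t) t : ℝ) = PC T (Set.Icc (-t) t) := G.N_eq hT (-t) t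
  unfold Nr
  rw [← h6, h5, mul_div_cancel_left₀ _ (Xf_pos hT).ne']

lemma to_tail (hRH : RiemannHypothesis) {l : Filter ℝ} (hl : l ≤ atTop) (h : Montgomery l)
    (w : ℝ → ℝ) : TailSign l w := by
  refine ⟨1, 1, 1, one_pos, one_pos, one_pos, fun β hβ ε hε => ?_⟩
  rw [tail_iff hl (by linarith)]
  have h1 := (((to_Aa hRH hl h β).sub_const (AG β)).const_mul (w β)).abs
  rw [sub_self, mul_zero, abs_zero] at h1
  have h2 := h1.eventually (gt_mem_nhds hε)
  filter_upwards [h2] with T hT
  have h4 := (abs_lt.1 hT).1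
  have h5 := Real.exp_pos (-(1 * β))
  linarith

/-- **Theorem.** Assume the Riemann hypothesis. Let `T → ∞`, or let `T → ∞` along any sequence (a
filter finer than `T → ∞`). (1) Let `w` be an even or an odd trigonometric polynomial, not
identically zero, with frequencies of absolute value at most `A < 1`. Montgomery's conjecture is
equivalent to the one-sided bound, for long windows, with the signs of `w`. (2) It is equivalent to
the lower half of it for the windows `(0, β]`, `β ≥ R`, up to an exponentially small error.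
(3) Effective form for the multiplicities, at a single height. -/
theorem result (hRH : RiemannHypothesis) :
    (∀ l : Filter ℝ, l ≤ atTop → ∀ (w : ℝ → ℝ) (A : ℝ) (n : ℕ) (a d : ℕ → ℝ), A < 1 →
      (∀ j < n, |a j| ≤ A) → (∃ β, w β ≠ 0) →
      ((∀ β, w β = ∑ j ∈ Finset.range n, d j * Real.cos (2 * Real.pi * a j * β)) ∨
        (∀ β, w β = ∑ j ∈ Finset.range n, d j * Real.sin (2 * Real.pi * a j * β))) →
      (Montgomery l ↔ TailSign l w)) ∧
    (∀ l : Filter ℝ, l ≤ atTop → (Montgomery l ↔ TailInitial l)) ∧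
    (∀ ε : ℝ, 0 < ε → ∃ T₀ : ℝ, ∀ T : ℝ, T₀ ≤ T → ∀ B η : ℝ, 1 ≤ B → 0 ≤ η →
      (∀ β : ℝ, 0 < β → β ≤ B → (gue 0 β - η) * X T ≤ Npos T β) →
      (N T 0 0 : ℝ) ≤ (1 + 2 * η + 4 / (3 * B) + ε) * X T ∧
      (1 - 2 * η - 4 / (3 * B) - ε) * X T ≤ Nsimple T) := by
  refine ⟨?_, ?_, ?_⟩
  · intro l hl w A n a d hA ha hw0 hw
    constructor
    · exact fun h => to_tail hRH hl h w
    · rintro ⟨C, c, R, hC, hc, hR, h⟩
      refine of_Aa hl fun x => H424.TW.Aa_tail hRH hl hA ha hw hw0 hC.le hc hR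
        (fun β hβ ε hε => ?_) x
      exact (tail_iff hl (hR.trans_le hβ)).1 (h β hβ ε hε)
  · intro l hl
    constructor
    · intro h
      refine ⟨1, 1, 1, one_pos, one_pos, one_pos, fun β hβ ε hε => ?_⟩
      have hβ0 : 0 ≤ β := by linarith
      have hall := to_Aa hRH hl h
      have h1 := ((hall β).sub (hall 0)).div_const 2
      have h2 : (AG β - AG 0) / 2 = gp β := by
        rw [H424.MW.AG_eq hβ0, H424.MW.AG_eq le_rfl, gp_zero]
        ring
      rw [h2] at h1
      have h3 := h1.eventually (lt_mem_nhds (show gp β - ε < gp β by linarith))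
      filter_upwards [h3, hl (eventually_gt_atTop 1)] with T h4 hT
      rw [Npos_Aa hT hβ0, X_eq, gue_zero, mul_comm]
      refine mul_le_mul_of_nonneg_left ?_ (Xf_pos hT).le
      have h5 := Real.exp_pos (-(1 * β))
      linarith
    · rintro ⟨C, c, R, hC, hc, hR, h⟩
      refine of_Aa hl fun x => H424.TW.Aa_tail hRH hl (A := 0) (n := 1) (a := fun _ => 0)
        (d := fun _ => 1) (w := fun _ => 1) one_pos (fun j _ => by simp)
        (Or.inl fun β => by simp) ⟨0, one_ne_zero⟩
        (C := 2 * C) (by positivity) hc hR (fun β hβ ε hε => ?_) x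
      have hβ0 : 0 ≤ β := hR.le.trans hβ
      filter_upwards [h β hβ (ε / 4) (by linarith), hl (Aa_diag (ε := ε / 2) (by linarith)),
        hl (eventually_gt_atTop 1)] with T h1 h2 hT
      rw [Npos_Aa hT hβ0, X_eq, gue_zero, mul_comm] at h1
      have h3 := le_of_mul_le_mul_left h1 (Xf_pos hT)
      rw [one_mul, H424.MW.AG_eq hβ0]
      linarith
  · intro ε hε
    obtain ⟨T1, hT1, hNN⟩ := Pool.Agent.W54.TCF.NT_asymp' (ε / 4) (by linarith)
    obtain ⟨T2, hT2⟩ := (H424.MW.diag_single hRH (ε := ε / 2) (by linarith)).exists_forall_of_atTop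
    refine ⟨max T1 T2, fun T hT B η hB hη hlow => ?_⟩
    obtain ⟨hT1', h2⟩ := hT2 T ((le_max_right _ _).trans hT)
    have hX := Xf_pos hT1'
    have h3 := h2 B η hB hη (fun t ht => by
      have h4 := hlow t ht.1 ht.2
      rw [Npos_Aa hT1' ht.1.le, X_eq, gue_zero, mul_comm] at h4
      exact le_of_mul_le_mul_left h4 hX)
    have h5 : (N T 0 0 : ℝ) = Xf T * Aa T 0 := by
      have := N_sym hT1' (β := 0)
      rwa [neg_zero] at this
    have h6 := simple_ge hT1'
    have h7 := (hNN T ((le_max_left _ _).trans hT)).1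
    have h8 : T / (2 * Real.pi) * Real.log T = Xf T := X_eq T
    rw [h8] at h7
    rw [X_eq]
    have h9 := mul_le_mul_of_nonneg_left h3 hX.le
    have h10 := mul_pos hε hX
    constructor
    · rw [h5]
      nlinarith
    · nlinarith

end Pool.Agent.Results.MP_103a5c_nt.TailSigns
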